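import Pool.Agent.Run7.h257.NP.Stm

set_option autoImplicit false

namespace Pool.Agent.Run7.h257.NP

theorem t_ISO : S_ISO := by
  rintro q n hq ⟨h, b, m, hb1, hbh, hm1, hmh, hhq, hn⟩
  have hh2 : 2 ≤ h := by omega
  have hhq' : h < q := by nlinarith
  have hbq : b < q := by omega
  -- coprimality of n and b
  have hcop : Nat.Coprime n b := by
    have h1 : Nat.Coprime q b :=
      (Nat.Prime.coprime_iff_not_dvd hq).mpr (Nat.not_dvd_of_pos_of_lt (by omega) hbq)
    have hd1 : Nat.gcd n b ∣ q := by
      have : Nat.gcd n b ∣ q + b * m := by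
        rw [← hn]; exact (Nat.gcd_dvd_left n b).mul_right h
      exact (Nat.dvd_add_left ((Nat.gcd_dvd_right n b).mul_right m)).mp this
    have hd2 : Nat.gcd n b ∣ Nat.gcd q b := Nat.dvd_gcd hd1 (Nat.gcd_dvd_right n b)
    rw [h1] at hd2
    exact Nat.dvd_one.mp hd2
  have hn0 : 0 < n := by
    rcases Nat.eq_zero_or_pos n with h0 | h0
    · rw [h0, zero_mul] at hn
      have := hq.pos
      omega
    · exact h0
  -- choose j, κ
  obtain ⟨j, κ, hjb, hjκ⟩ : ∃ j κ : ℕ, j < b ∧ n * j + 1 = b * κ := by
    obtain ⟨x, hx⟩ : ∃ x : ℕ, (n * x) % b = (b - 1) % b := by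
      have := Nat.exists_mul_mod_eq_one_of_coprime hcop
      by_cases hb : b = 1
      · subst hb; exact ⟨0, by simp⟩
      · obtain ⟨x, hx⟩ := this (by omega)
        refine ⟨x * (b - 1), ?_⟩
        rw [← mul_assoc, Nat.mul_mod, hx.2, one_mul, Nat.mod_mod]
    refine ⟨x % b, (n * (x % b) + 1) / b, Nat.mod_lt _ (by omega), ?_⟩
    have h2 : b ∣ n * (x % b) + 1 := by
      have h3 : (n * (x % b)) % b = (b - 1) % b := by rw [Nat.mul_mod_mod, hx]
      have h4 : (n * (x % b) + 1) % b = 0 := by
        rw [Nat.add_mod, h3, Nat.mod_add_mod, Nat.add_mod_mod]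
        have : b - 1 + 1 = b := by omega
        rw [this, Nat.mod_self]
      exact Nat.dvd_of_mod_eq_zero h4
    exact (Nat.mul_div_cancel' h2).symm
  -- y
  have hdy : b ∣ j * q + h := by
    have h1 : n * (j * q + h) = b * (κ * q + m) := by
      have : n * (j * q + h) = (n * j + 1) * q + b * m := by
        have : n * (j * q + h) = n * j * q + n * h := by ring
        rw [this, hn]; ring
      rw [this, hjκ]; ring
    exact (Nat.Coprime.symm hcop).dvd_of_dvd_mul_left ⟨_, h1⟩
  obtain ⟨y, hy⟩ := hdy
  have hny : n * y = κ * q + m := by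
    have h1 : b * (n * y) = b * (κ * q + m) := by
      have e1 : b * (n * y) = n * (b * y) := by ring
      have e2 : n * (j * q + h) = (n * j + 1) * q + b * m := by
        have : n * (j * q + h) = n * j * q + n * h := by ring
        rw [this, hn]; ring
      rw [e1, ← hy, e2, hjκ]; ring
    exact Nat.eq_of_mul_eq_mul_left (by omega) h1
  have hnq : n < q := by
    by_contra hcon
    rw [not_lt] at hcon
    have : q * h ≤ n * h := Nat.mul_le_mul_right h hcon
    have h3 : b * m < h * h := by nlinarith
    nlinarith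
  have hmn : m < n := by
    by_contra hcon
    rw [not_lt] at hcon
    have h1 : n * h ≤ m * h := Nat.mul_le_mul_right h hcon
    have h2 : m * h < h * h := by nlinarith
    nlinarith
  have hy2 : 2 ≤ y := by
    by_contra hcon
    have hy1 : y ≤ 1 := by omega
    have : b * y ≤ b * 1 := Nat.mul_le_mul_left b hy1
    have hnn := Nat.zero_le (j * q)
    omega
  have hyq : y < q := by
    by_contra hcon
    rw [not_lt] at hcon
    have h1 : b * q ≤ b * y := Nat.mul_le_mul_left b hcon
    have h2 : j * q ≤ (b - 1) * q := Nat.mul_le_mul_right q (by omega)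
    have h3 : (b - 1) * q + q = b * q := by
      have : b - 1 + 1 = b := by omega
      calc (b - 1) * q + q = (b - 1 + 1) * q := by ring
        _ = b * q := by rw [this]
    omega
  have hq0 : 0 < q := hq.pos
  have hκ : 1 ≤ κ := by
    rcases Nat.eq_zero_or_pos κ with h0 | h0
    · rw [h0, mul_zero] at hjκ; omega
    · exact h0
  obtain ⟨w, rfl⟩ : ∃ w, y = w + 1 := ⟨y - 1, by omega⟩
  have hyw : w + 1 - 1 = w := by omega
  refine ⟨w + 1, hy2, hyq, ?_, ?_⟩
  · rw [hyw, hny]
    have h1 : (κ * q + m) / q = κ := by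
      rw [Nat.div_eq_iff hq0]
      constructor
      · nlinarith
      · have : m < q := by omega
        have : (κ + 1) * q = κ * q + q := by ring
        omega
    have h2 : n * w / q = κ - 1 := by
      obtain ⟨t, rfl⟩ : ∃ t, κ = t + 1 := ⟨κ - 1, by omega⟩
      have e1 : n * w + n = (t + 1) * q + m := by rw [← hny]; ring
      have e2 : (t + 1) * q = t * q + q := by ring
      have e3 : (t + 1 - 1) = t := by omega
      rw [e3, Nat.div_eq_iff hq0]
      constructor
      · omega
      · omega
    rw [h1, h2]; omega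
  · intro n' hn'1 hn'n
    rw [hyw]
    apply le_antisymm
    · by_contra hcon
      rw [not_le] at hcon
      -- κ' = n' * (w+1) / q
      set κ' := n' * (w + 1) / q with hκ'
      have g1 : κ' * q ≤ n' * (w + 1) := Nat.div_mul_le_self _ _
      have g2 : n' * w < κ' * q := by
        rw [← Nat.div_lt_iff_lt_mul hq0]; exact hcon
      -- multiply by b
      have ew : (b : ℤ) * (w + 1) = j * q + h := by exact_mod_cast hy.symm
      have g3 : (b : ℤ) * κ' * q ≤ n' * (j * q + h) := by
        have h1 : (b : ℤ) * ((κ' : ℤ) * q) ≤ b * (n' * (w + 1)) :=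
          mul_le_mul_of_nonneg_left (by exact_mod_cast g1) (by positivity)
        calc (b : ℤ) * κ' * q = b * (κ' * q) := by ring
          _ ≤ b * (n' * (w + 1)) := h1
          _ = n' * (b * (w + 1)) := by ring
          _ = n' * (j * q + h) := by rw [ew]
      have g4 : (n' : ℤ) * (j * q + h) - n' * b < b * κ' * q := by
        have h1 : (b : ℤ) * (n' * w) < b * (κ' * q) :=
          mul_lt_mul_of_pos_left (by exact_mod_cast g2) (by exact_mod_cast (by omega : 0 < b))
        calc (n' : ℤ) * (j * q + h) - n' * b = n' * (b * (w + 1)) - n' * b := by rw [ew]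
          _ = b * (n' * w) := by ring
          _ < b * (κ' * q) := h1
          _ = b * κ' * q := by ring
      set e : ℤ := b * κ' - n' * j with he
      have hqz : (0 : ℤ) < q := by exact_mod_cast hq0
      have g5 : e * q ≤ n' * h := by
        have : e * q = b * κ' * q - n' * (j * q + h) + n' * h := by rw [he]; ring
        linarith
      have g6 : (n' : ℤ) * (h - b) < e * q := by
        have h1 : e * q = b * κ' * q - n' * (j * q + h) + n' * h := by rw [he]; ring
        have h2 : (n' : ℤ) * (h - b) = n' * h - n' * b := by ring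
        linarith
      have hn'z : (1 : ℤ) ≤ n' := by exact_mod_cast hn'1
      have hn'nz : (n' : ℤ) < n := by exact_mod_cast hn'n
      have hbhz : (b : ℤ) < h := by exact_mod_cast hbh
      have hb1z : (1 : ℤ) ≤ b := by exact_mod_cast hb1
      have hmz : (m : ℤ) < h := by exact_mod_cast hmh
      have hm1z : (1 : ℤ) ≤ m := by exact_mod_cast hm1
      have hhz : (h : ℤ) ^ 2 ≤ q := by exact_mod_cast hhq
      have hnz : (n : ℤ) * h = q + b * m := by exact_mod_cast hn
      have e1 : 1 ≤ e := by
        by_contra hc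
        have : e ≤ 0 := by omega
        have h1 : e * q ≤ 0 := mul_nonpos_of_nonpos_of_nonneg this hqz.le
        have h2 : 0 < (n' : ℤ) * (h - b) := mul_pos (by omega) (by omega)
        omega
      have hbm : (b : ℤ) * m < h ^ 2 := by
        calc (b : ℤ) * m < h * h := mul_lt_mul'' hbhz hmz (by omega) (by omega)
          _ = h ^ 2 := by ring
      have e2 : e < 2 := by
        by_contra hc
        rw [not_lt] at hc
        have h1 : 2 * (q : ℤ) ≤ e * q := mul_le_mul_of_nonneg_right hc hqz.le
        have h2 : (n' : ℤ) * h ≤ n * h := mul_le_mul_of_nonneg_right hn'nz.le (by omega)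
        linarith
      have e3 : e = 1 := by omega
      have hdvd : (b : ℤ) ∣ (n - n') * j := by
        have h1 : (n : ℤ) * j + 1 = b * κ := by exact_mod_cast hjκ
        refine ⟨κ - κ', ?_⟩
        have h2 : (b : ℤ) * κ' - n' * j = 1 := by rw [← he]; exact e3
        linear_combination h1 + h2
      have hcj : IsCoprime (b : ℤ) (j : ℤ) := by
        refine ⟨κ, -n, ?_⟩
        have h1 : (n : ℤ) * j + 1 = b * κ := by exact_mod_cast hjκ
        linear_combination -h1
      have hdvd2 : (b : ℤ) ∣ n - n' := hcj.dvd_of_dvd_mul_right hdvd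
      have hle : (b : ℤ) ≤ n - n' := Int.le_of_dvd (by omega) hdvd2
      rw [e3, one_mul] at g5
      have h5 : (n' : ℤ) * h ≤ (n - b) * h :=
        mul_le_mul_of_nonneg_right (by linarith) (by omega)
      have h6 : ((n : ℤ) - b) * h = n * h - b * h := by ring
      have h7 : (b : ℤ) * m < b * h := mul_lt_mul_of_pos_left hmz (by omega)
      linarith
    · exact Nat.div_le_div_right (Nat.mul_le_mul_left n' (by omega))

end Pool.Agent.Run7.h257.NP
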