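import Pool.Agent.Run7.h257.NP.Alg
import Pool.Agent.Run7.h257.NP.IsoPf

set_option autoImplicit false

namespace Pool.Agent.Run7.h257.NP

theorem main_of (hcnt : S_CNT) : S_MAIN := by
  obtain ⟨c, hc, Q, hQ⟩ := hcnt
  refine ⟨c / 2, by positivity, max Q (⌈(6 / c) ^ 3⌉₊ + 2), ?_⟩
  intro q hq hqQ p hp hp2 hpq hpq1 P hP hpP
  have hqQ1 : Q ≤ q := le_trans (le_max_left _ _) hqQ
  have hqQ2 : ⌈(6 / c) ^ 3⌉₊ + 2 ≤ q := le_trans (le_max_right _ _) hqQ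
  obtain ⟨R, hR, hRc⟩ := hQ q hq hqQ1
  have h1 : R.card ≤ (Ind q P).ncard + 1 := by
    refine t_ALG p q hp hp2 hq hpq hpq1 P hP hpP R fun n hn => ?_
    obtain ⟨a1, a2, a3⟩ := hR n hn
    exact ⟨a1, a2, t_ISO q n hq a3⟩
  have h2 : (R.card : ℝ) ≤ ((Ind q P).ncard : ℝ) + 1 := by exact_mod_cast h1
  have hq1 : (1 : ℝ) < q := by exact_mod_cast hq.one_lt
  have hq0 : (0 : ℝ) < q := by linarith
  have hlog : 0 < Real.log q := Real.log_pos hq1
  set s : ℝ := (q : ℝ) ^ ((1 : ℝ) / 3) with hs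
  have hs0 : 0 < s := Real.rpow_pos_of_pos hq0 _
  have hs2 : (q : ℝ) ^ ((2 : ℝ) / 3) = s * s := by
    rw [hs, ← Real.rpow_add hq0]; norm_num
  have hlog2 : Real.log q ≤ 3 * s := by
    have e1 : Real.log s = (1 / 3) * Real.log q := Real.log_rpow hq0 _
    have e2 : Real.log s ≤ s - 1 := Real.log_le_sub_one_of_pos hs0
    linarith
  have hs3 : 6 / c ≤ s := by
    have e1 : (6 / c) ^ 3 ≤ (q : ℝ) := by
      have := Nat.le_ceil ((6 / c) ^ 3)
      have h' : ((⌈(6 / c) ^ 3⌉₊ : ℕ) : ℝ) + 2 ≤ q := by exact_mod_cast hqQ2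
      linarith
    have e2 : ((6 / c) ^ 3) ^ ((1 : ℝ) / 3) ≤ s :=
      Real.rpow_le_rpow (by positivity) e1 (by norm_num)
    have e3 : ((6 / c) ^ 3) ^ ((1 : ℝ) / 3) = 6 / c := by
      rw [← Real.rpow_natCast (6 / c) 3, ← Real.rpow_mul (by positivity)]
      norm_num
    linarith
  have h3 : 2 ≤ c * (q : ℝ) ^ ((2 : ℝ) / 3) / Real.log q := by
    rw [le_div_iff₀ hlog, hs2]
    have e1 : 6 ≤ c * s := by
      rw [div_le_iff₀ hc] at hs3
      linarith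
    calc 2 * Real.log q ≤ 2 * (3 * s) := by linarith
      _ = 6 * s := by ring
      _ ≤ (c * s) * s := mul_le_mul_of_nonneg_right e1 hs0.le
      _ = c * (s * s) := by ring
  have h4 : c / 2 * (q : ℝ) ^ ((2 : ℝ) / 3) / Real.log q
      = (c * (q : ℝ) ^ ((2 : ℝ) / 3) / Real.log q) / 2 := by ring
  rw [h4]
  linarith

end Pool.Agent.Run7.h257.NP
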