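import Pool.Agent.Run7.h257.NP.Stm

set_option autoImplicit false

open scoped Classical

namespace Pool.Agent.Run7.h257.NP

noncomputable section

abbrev OO : Type := integralClosure ℤ ℂ

theorem chi_integral {q : ℕ} [NeZero q] (χ : DirichletCharacter ℂ q) (x : ZMod q) :
    IsIntegral ℤ (χ x) := by
  by_cases hx : IsUnit x
  · obtain ⟨u, rfl⟩ := hx
    have h1 : (χ (u : ZMod q)) ^ (Fintype.card (ZMod q)ˣ) = 1 := by
      rw [← map_pow, ← Units.val_pow_eq_pow_val, pow_card_eq_one, Units.val_one, map_one]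
    have h2 : IsIntegral ℤ ((χ (u : ZMod q)) ^ (Fintype.card (ZMod q)ˣ)) := by
      rw [h1]; exact isIntegral_one
    exact IsIntegral.of_pow Fintype.card_pos h2
  · rw [MulChar.map_nonunit χ hx]
    exact isIntegral_zero

/-- The values of a character as algebraic integers. -/
def va {q : ℕ} [NeZero q] (χ : DirichletCharacter ℂ q) (x : ZMod q) : OO :=
  ⟨χ x, chi_integral χ x⟩

theorem va_coe {q : ℕ} [NeZero q] (χ : DirichletCharacter ℂ q) (x : ZMod q) :
    ((va χ x : OO) : ℂ) = χ x := rfl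

/-- `B(χ) = Σ z χ(z)`. -/
def BB {q : ℕ} [NeZero q] (χ : DirichletCharacter ℂ q) : OO :=
  ∑ z : ZMod q, ((z.val : ℕ) : OO) * va χ z

theorem BB_coe {q : ℕ} [NeZero q] (χ : DirichletCharacter ℂ q) :
    ((BB χ : OO) : ℂ) = ∑ z : ZMod q, ((z.val : ℕ) : ℂ) * χ z := by
  unfold BB
  rw [show ((∑ z : ZMod q, ((z.val : ℕ) : OO) * va χ z : OO) : ℂ)
    = (algebraMap OO ℂ) (∑ z : ZMod q, ((z.val : ℕ) : OO) * va χ z) from rfl, map_sum]
  refine Finset.sum_congr rfl fun z _ => ?_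
  rw [map_mul, map_natCast]
  rfl

instance {q : ℕ} [NeZero q] : Fintype (DirichletCharacter ℂ q) := Fintype.ofFinite _

theorem inversion {q : ℕ} [NeZero q] (hq : q.Prime) {a : ZMod q} (ha : IsUnit a) :
    (((q - 1 : ℕ) : OO)) * ((a.val : ℕ) : OO)
      = ∑ χ : DirichletCharacter ℂ q, BB χ * va χ a⁻¹ := by
  have hinj : Function.Injective (algebraMap OO ℂ) := Subtype.val_injective
  apply hinj
  rw [map_sum, map_mul, map_natCast, map_natCast]
  have h1 : ∀ χ : DirichletCharacter ℂ q, (algebraMap OO ℂ) (BB χ * va χ a⁻¹)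
      = ∑ z : ZMod q, ((z.val : ℕ) : ℂ) * (χ a⁻¹ * χ z) := by
    intro χ
    rw [map_mul]
    change ((BB χ : OO) : ℂ) * χ a⁻¹ = _
    rw [BB_coe, Finset.sum_mul]
    refine Finset.sum_congr rfl fun z _ => by ring
  rw [Finset.sum_congr rfl fun χ _ => h1 χ, Finset.sum_comm]
  have h2 : ∀ z : ZMod q, ∑ χ : DirichletCharacter ℂ q, ((z.val : ℕ) : ℂ) * (χ a⁻¹ * χ z)
      = if a = z then ((z.val : ℕ) : ℂ) * ((q - 1 : ℕ) : ℂ) else 0 := by
    intro z
    rw [← Finset.mul_sum]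
    have := DirichletCharacter.sum_char_inv_mul_char_eq ℂ ha z
    rw [Nat.totient_prime hq] at this
    have h3 : ∑ χ : DirichletCharacter ℂ q, χ a⁻¹ * χ z = if a = z then ((q - 1 : ℕ) : ℂ) else 0 := by
      rw [← this]
    rw [h3]
    split_ifs <;> simp
  rw [Finset.sum_congr rfl fun z _ => h2 z, Finset.sum_ite_eq]
  simp only [Finset.mem_univ, if_true]
  ring

theorem natCast_notMem {p : ℕ} {P : Ideal OO} (hP : P.IsMaximal) (hpP : (p : OO) ∈ P) {N : ℕ} (hN : Nat.Coprime p N) :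
    ((N : ℕ) : OO) ∉ P := by
  intro hmem
  apply hP.ne_top
  rw [Ideal.eq_top_iff_one]
  have h := Nat.isCoprime_iff_coprime.mpr hN
  obtain ⟨u, v, huv⟩ := h
  have h2 : ((u : ℤ) : OO) * ((p : ℕ) : OO) + ((v : ℤ) : OO) * ((N : ℕ) : OO) = 1 := by
    exact_mod_cast congrArg (fun t : ℤ => (t : OO)) huv
  rw [← h2]
  exact P.add_mem (P.mul_mem_left _ hpP) (P.mul_mem_left _ hmem)

/-- Even nontrivial characters have `B(χ) = 0`. -/
theorem BB_even {q : ℕ} [NeZero q] (hq : q.Prime) {χ : DirichletCharacter ℂ q} (h1 : χ ≠ 1)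
    (he : χ (-1) = 1) : BB χ = 0 := by
  have hinj : Function.Injective (algebraMap OO ℂ) := Subtype.val_injective
  apply hinj
  rw [map_zero]
  change ((BB χ : OO) : ℂ) = 0
  rw [BB_coe]
  have hsum : ∑ z : ZMod q, χ z = 0 := MulChar.sum_eq_zero_of_ne_one h1
  have hneg : ∑ z : ZMod q, ((z.val : ℕ) : ℂ) * χ z = ∑ z : ZMod q, (((-z).val : ℕ) : ℂ) * χ z := by
    rw [← Equiv.sum_comp (Equiv.neg (ZMod q))]
    refine Finset.sum_congr rfl fun z _ => ?_
    have : χ (-z) = χ z := by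
      rw [neg_eq_neg_one_mul, map_mul, he, one_mul]
    simp only [Equiv.neg_apply, this]
  have h2 : ∑ z : ZMod q, ((z.val : ℕ) : ℂ) * χ z + ∑ z : ZMod q, (((-z).val : ℕ) : ℂ) * χ z
      = (q : ℂ) * ∑ z : ZMod q, χ z := by
    rw [← Finset.sum_add_distrib, Finset.mul_sum]
    refine Finset.sum_congr rfl fun z _ => ?_
    by_cases hz : z = 0
    · subst hz
      have : χ (0 : ZMod q) = 0 := by
        apply MulChar.map_nonunit
        have : Fact q.Prime := ⟨hq⟩
        simp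
      rw [this]; ring
    · have h3 : (-z).val = q - z.val := by
        rw [ZMod.neg_val, if_neg hz]
      have h4 : z.val < q := ZMod.val_lt z
      rw [h3, Nat.cast_sub h4.le]
      ring
  rw [← hneg, hsum, mul_zero] at h2
  have h5 : (2 : ℂ) * ∑ z : ZMod q, ((z.val : ℕ) : ℂ) * χ z = 0 := by
    rw [two_mul]; exact h2
  rcases mul_eq_zero.mp h5 with h6 | h6
  · norm_num at h6
  · exact h6

theorem sum_Ico {q : ℕ} [NeZero q] (hq : q.Prime) (χ : DirichletCharacter ℂ q) :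
    ∑ k ∈ Finset.Ico 1 q, (k : ℂ) * χ (k : ZMod q) = ((BB χ : OO) : ℂ) := by
  rw [BB_coe]
  have h0 : ∑ k ∈ Finset.Ico 1 q, (k : ℂ) * χ (k : ZMod q)
      = ∑ k ∈ Finset.range q, (k : ℂ) * χ (k : ZMod q) := by
    rw [Finset.range_eq_Ico, Finset.sum_eq_sum_Ico_succ_bot hq.pos]
    simp
  rw [h0]
  symm
  refine Finset.sum_bij (fun (z : ZMod q) _ => z.val) ?_ ?_ ?_ ?_
  · intro z _
    exact Finset.mem_range.mpr (ZMod.val_lt z)
  · intro a _ b _ hab
    exact ZMod.val_injective q hab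
  · intro k hk
    refine ⟨(k : ZMod q), Finset.mem_univ _, ?_⟩
    exact ZMod.val_cast_of_lt (Finset.mem_range.mp hk)
  · intro z _
    rw [ZMod.natCast_zmod_val]

/-- The main step. -/
theorem card_le {q : ℕ} [NeZero q] (hq : q.Prime) {P : Ideal OO} (hP : P.IsMaximal)
    (hqP : ((q : ℕ) : OO) ∉ P) (hq1 : ((q - 1 : ℕ) : OO) ∉ P)
    (R : Finset ℕ) (hR : ∀ n ∈ R, 1 ≤ n ∧ n < q ∧ ∃ y : ℕ, Iso q n y) :
    R.card ≤ (Finset.univ.filter fun χ : DirichletCharacter ℂ q => BB χ ∉ P).card := by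
  have : Fact q.Prime := ⟨hq⟩
  by_contra hlt
  rw [not_le] at hlt
  set S := Finset.univ.filter fun χ : DirichletCharacter ℂ q => BB χ ∉ P with hS
  let _ : Field (OO ⧸ P) := Ideal.Quotient.field P
  set π : OO →+* OO ⧸ P := Ideal.Quotient.mk P with hπ
  have hπ0 : ∀ z : OO, π z = 0 ↔ z ∈ P := fun z => Ideal.Quotient.eq_zero_iff_mem
  -- a nontrivial combination
  let f : (R → OO ⧸ P) →ₗ[OO ⧸ P] (S → OO ⧸ P) :=
    { toFun := fun c χ => ∑ n : R, c n * π (va χ.1 ((n.1 : ZMod q))⁻¹)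
      map_add' := by
        intro c d; funext χ
        simp only [Pi.add_apply, add_mul, Finset.sum_add_distrib]
      map_smul' := by
        intro r c; funext χ
        simp only [Pi.smul_apply, smul_eq_mul, RingHom.id_apply, Finset.mul_sum, mul_assoc] }
  have hker : LinearMap.ker f ≠ ⊥ := by
    apply LinearMap.ker_ne_bot_of_finrank_lt
    rw [Module.finrank_fintype_fun_eq_card, Module.finrank_fintype_fun_eq_card,
      Fintype.card_coe, Fintype.card_coe]
    exact hlt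
  obtain ⟨c, hc, hc0⟩ := (Submodule.ne_bot_iff _).mp hker
  have hcf : ∀ χ ∈ S, ∑ n : R, c n * π (va χ ((n.1 : ZMod q))⁻¹) = 0 := by
    intro χ hχ
    have := congrFun (LinearMap.mem_ker.mp hc) ⟨χ, hχ⟩
    exact this
  -- vanishing on all units
  have hunit : ∀ n : ℕ, 1 ≤ n → n < q → IsUnit (n : ZMod q) := by
    intro n h1 h2
    rw [ZMod.isUnit_iff_coprime]
    exact ((Nat.Prime.coprime_iff_not_dvd hq).mpr (Nat.not_dvd_of_pos_of_lt (by omega) h2)).symm
  have hvan : ∀ x : ℕ, 1 ≤ x → x < q →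
      ∑ n : R, c n * π (((n.1 * x % q : ℕ)) : OO) = 0 := by
    intro x hx1 hx2
    have hxu := hunit x hx1 hx2
    have key : π (((q - 1 : ℕ)) : OO) * ∑ n : R, c n * π (((n.1 * x % q : ℕ)) : OO) = 0 := by
      have h1 : ∀ n : R, π (((q - 1 : ℕ)) : OO) * (c n * π (((n.1 * x % q : ℕ)) : OO))
          = ∑ χ : DirichletCharacter ℂ q,
            (π (BB χ) * π (va χ ((x : ZMod q))⁻¹)) * (c n * π (va χ ((n.1 : ZMod q))⁻¹)) := by
        intro n
        obtain ⟨hn1, hn2, -⟩ := hR n.1 n.2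
        have hnu := hunit n.1 hn1 hn2
        have hu : IsUnit ((n.1 : ZMod q) * (x : ZMod q)) := hnu.mul hxu
        have hinv := inversion hq hu
        have hval : ((n.1 : ZMod q) * (x : ZMod q)).val = n.1 * x % q := by
          rw [← Nat.cast_mul, ZMod.val_natCast]
        rw [hval] at hinv
        have h2 := congrArg π hinv
        rw [map_mul, map_sum] at h2
        rw [mul_left_comm, h2, Finset.mul_sum]
        refine Finset.sum_congr rfl fun χ _ => ?_
        have h3 : va χ ((n.1 : ZMod q) * (x : ZMod q))⁻¹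
            = va χ ((n.1 : ZMod q))⁻¹ * va χ ((x : ZMod q))⁻¹ := by
          apply Subtype.ext
          change χ _ = χ _ * χ _
          rw [← map_mul, ← mul_inv]
        rw [h3, map_mul, map_mul]
        ring
      rw [Finset.mul_sum, Finset.sum_congr rfl fun n _ => h1 n, Finset.sum_comm]
      refine Finset.sum_eq_zero fun χ _ => ?_
      rw [← Finset.mul_sum]
      by_cases hχ : χ ∈ S
      · rw [hcf χ hχ, mul_zero]
      · have : BB χ ∈ P := by
          by_contra hcon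
          exact hχ (by rw [hS]; simp [hcon])
        rw [(hπ0 _).mpr this, zero_mul, zero_mul]
    rcases mul_eq_zero.mp key with h | h
    · exact absurd ((hπ0 _).mp h) hq1
    · exact h
  -- the largest index
  have hex : ∃ n : R, c n ≠ 0 := by
    by_contra hcon
    push Not at hcon
    exact hc0 (funext hcon)
  have hne : (Finset.univ.filter fun n : R => c n ≠ 0).Nonempty := by
    obtain ⟨n, hn⟩ := hex
    exact ⟨n, by simp [hn]⟩
  obtain ⟨n0, hn0, hmax⟩ := Finset.exists_max_image _ (fun n : R => n.1) hne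
  rw [Finset.mem_filter] at hn0
  obtain ⟨hn1, hn2, y, hy2, hyq, hyE, hyI⟩ := hR n0.1 n0.2
  have e1 := hvan y (by omega) hyq
  have e2 := hvan (y - 1) (by omega) (by omega)
  have e3 := hvan 1 le_rfl hq.one_lt
  have e4 : ∑ n : R, c n * (π (((n.1 * y % q : ℕ)) : OO) - π (((n.1 * (y - 1) % q : ℕ)) : OO)
      - π (((n.1 * 1 % q : ℕ)) : OO)) = 0 := by
    have : ∀ n : R, c n * (π (((n.1 * y % q : ℕ)) : OO) - π (((n.1 * (y - 1) % q : ℕ)) : OO)
      - π (((n.1 * 1 % q : ℕ)) : OO)) = c n * π (((n.1 * y % q : ℕ)) : OO)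
        - c n * π (((n.1 * (y - 1) % q : ℕ)) : OO) - c n * π (((n.1 * 1 % q : ℕ)) : OO) := by
      intro n; ring
    rw [Finset.sum_congr rfl fun n _ => this n, Finset.sum_sub_distrib, Finset.sum_sub_distrib,
      e1, e2, e3]
    ring
  have hdiff : ∀ n : R, π (((n.1 * y % q : ℕ)) : OO) - π (((n.1 * (y - 1) % q : ℕ)) : OO)
      - π (((n.1 * 1 % q : ℕ)) : OO)
      = - π ((q : ℕ) : OO) * (((n.1 * y / q : ℕ) : OO ⧸ P) - ((n.1 * (y - 1) / q : ℕ) : OO ⧸ P)) := by
    intro n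
    obtain ⟨hm1, hm2, -⟩ := hR n.1 n.2
    have a1 := Nat.div_add_mod (n.1 * y) q
    have a2 := Nat.div_add_mod (n.1 * (y - 1)) q
    have a3 : n.1 * 1 % q = n.1 := by rw [mul_one]; exact Nat.mod_eq_of_lt hm2
    have a4 : n.1 * y = n.1 * (y - 1) + n.1 := by
      obtain ⟨w, rfl⟩ : ∃ w, y = w + 1 := ⟨y - 1, by omega⟩
      simp only [Nat.add_sub_cancel]; ring
    rw [a3]
    simp only [map_natCast]
    have b1 : ((q : ℕ) : OO ⧸ P) * ((n.1 * y / q : ℕ) : OO ⧸ P) + ((n.1 * y % q : ℕ) : OO ⧸ P)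
        = ((n.1 * y : ℕ) : OO ⧸ P) := by exact_mod_cast congrArg (fun t : ℕ => (t : OO ⧸ P)) a1
    have b2 : ((q : ℕ) : OO ⧸ P) * ((n.1 * (y - 1) / q : ℕ) : OO ⧸ P)
        + ((n.1 * (y - 1) % q : ℕ) : OO ⧸ P) = ((n.1 * (y - 1) : ℕ) : OO ⧸ P) := by
      exact_mod_cast congrArg (fun t : ℕ => (t : OO ⧸ P)) a2
    have b4 : ((n.1 * y : ℕ) : OO ⧸ P) = ((n.1 * (y - 1) : ℕ) : OO ⧸ P) + ((n.1 : ℕ) : OO ⧸ P) := by
      exact_mod_cast congrArg (fun t : ℕ => (t : OO ⧸ P)) a4
    linear_combination b1 - b2 + b4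
  rw [Finset.sum_eq_single n0] at e4
  · rw [hdiff n0] at e4
    rw [hyE] at e4
    push_cast at e4
    have e5 : c n0 * π ((q : ℕ) : OO) = 0 := by
      simp only [map_natCast] at e4 ⊢
      linear_combination -e4
    rcases mul_eq_zero.mp e5 with h | h
    · exact hn0.2 h
    · exact hqP ((hπ0 _).mp h)
  · intro n _ hnn
    by_cases hcn : c n = 0
    · rw [hcn, zero_mul]
    · have hle := hmax n (by simp [hcn])
      have hlt' : n.1 < n0.1 := lt_of_le_of_ne hle (fun h => hnn (Subtype.ext h))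
      obtain ⟨hm1, -, -⟩ := hR n.1 n.2
      rw [hdiff n, hyI n.1 hm1 hlt', sub_self, mul_zero, mul_zero]
  · intro h
    exact absurd (Finset.mem_univ _) h

theorem t_ALG : S_ALG := by
  intro p q hp hp2 hq hpq hpq1 P hP hpP R hR
  have : NeZero q := ⟨hq.ne_zero⟩
  have hqP : ((q : ℕ) : OO) ∉ P :=
    natCast_notMem hP hpP ((Nat.coprime_primes hp hq).mpr hpq)
  have hq1P : ((q - 1 : ℕ) : OO) ∉ P :=
    natCast_notMem hP hpP ((Nat.Prime.coprime_iff_not_dvd hp).mpr hpq1)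
  have h1 := card_le hq hP hqP hq1P R hR
  refine h1.trans ?_
  have hfin : (Ind q P).Finite := Set.toFinite _
  have hsub : (Finset.univ.filter fun χ : DirichletCharacter ℂ q => BB χ ∉ P)
      ⊆ insert 1 hfin.toFinset := by
    intro χ hχ
    rw [Finset.mem_filter] at hχ
    rw [Finset.mem_insert, Set.Finite.mem_toFinset]
    by_cases hχ1 : χ = 1
    · exact Or.inl hχ1
    · right
      have hodd : χ (-1 : ZMod q) = -1 := by
        rcases DirichletCharacter.even_or_odd χ with he | ho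
        · exact absurd (by rw [BB_even hq hχ1 he]; exact P.zero_mem) hχ.2
        · exact ho
      refine ⟨hodd, -BB χ, ((q : ℕ) : OO), ?_, hqP, ?_⟩
      · intro h
        exact hχ.2 (by simpa using P.neg_mem h)
      · rw [sum_Ico hq χ]
        have hq0 : (q : ℂ) ≠ 0 := Nat.cast_ne_zero.mpr hq.ne_zero
        have e1 : ((((q : ℕ) : OO)) : ℂ) = (q : ℂ) := map_natCast (algebraMap OO ℂ) q
        have e2 : (((-BB χ : OO)) : ℂ) = - ((BB χ : OO) : ℂ) := rfl
        rw [e1, e2]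
        field_simp
  calc (Finset.univ.filter fun χ : DirichletCharacter ℂ q => BB χ ∉ P).card
      ≤ (insert 1 hfin.toFinset).card := Finset.card_le_card hsub
    _ ≤ hfin.toFinset.card + 1 := Finset.card_insert_le _ _
    _ = (Ind q P).ncard + 1 := by rw [Set.ncard_eq_toFinset_card _ hfin]

end

end Pool.Agent.Run7.h257.NP
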