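/-
Project NP (MP_53226a_nt): for every odd prime `p` and every large prime `q` with `p ∤ q (q - 1)` at
least `c q^(2/3) / log q` odd characters `χ` modulo `q` have `L(χ, 0)` indivisible by `p`
(known: `q^(1/2 - ε)`).

PROOF.  Let `u(x)` be the representative of `x ∈ (Z/q)^×` in `[1, q)`, as a function with values in a field
`k` of characteristic `p`.  By Fourier inversion the translates `u(n x)` span a space of dimension at most
the number of `χ` with `B(χ) = Σ x χ(x) ≠ 0` in `k`; even `χ ≠ 1` have `B(χ) = 0`.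
The functional `g ↦ g(y) - g(y-1) - g(1)` takes the value `- q E_n(y)` at `u(n ·)`, `E_n(y)` = number of
multiples of `q` in `(n(y-1), n y]`.  If `n h = q + b m` with `1 ≤ b, m < h`, `h^2 ≤ q`, then there is a `y`
with `E_n(y) = 1` and `E_n'(y) = 0` for all `n' < n` (S_ISO), so the `u(n ·)` with such `n` are linearly
independent (S_ALG).  There are at least `c q^(2/3) / log q` such `n` (S_CNT).
-/
import Mathlib

set_option autoImplicit false

namespace Pool.Agent.Run7.h257.NP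

/-- `n` is good for `q`. -/
def Good (q n : ℕ) : Prop :=
  ∃ h b m : ℕ, 1 ≤ b ∧ b < h ∧ 1 ≤ m ∧ m < h ∧ h ^ 2 ≤ q ∧ n * h = q + b * m

/-- `n` is isolated by the step from `y - 1` to `y`. -/
def Iso (q n y : ℕ) : Prop :=
  2 ≤ y ∧ y < q ∧ n * y / q = n * (y - 1) / q + 1 ∧
    ∀ n' : ℕ, 1 ≤ n' → n' < n → n' * y / q = n' * (y - 1) / q

/-- PROOF. Common divisors of `b` and `h` divide `q`, so `b, h` are coprime (`b < q` prime), `n h ≡ q mod b`,
so `n, b` are coprime.  Choose `0 ≤ j < b` and `κ` with `n j + 1 = b κ` (for `b = 1`: `j = 0`, `κ = 1`).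
Then `n (j q + h) ≡ 0 mod b`, so `b y = j q + h` for some `y`, `n y = κ q + m` and `n (y - 1) = κ q - (n - m)`,
where `m < h ≤ q / h < n < q`.  Let `n' < n` and `n'(y - 1) < κ' q ≤ n' y`; multiply by `b`, put
`e = b κ' - n' j`: `n' (h - b) < e q ≤ n' h`.  So `e ≥ 1`; `e ≥ 2` gives `n' h ≥ 2 q`, but
`n' h < n h = q + b m < q + h^2 ≤ 2 q`.  If `e = 1`, then `n' j ≡ -1 ≡ n j mod b`, so `b | n - n'`,
`n' ≤ n - b`, `n' h ≤ q + b m - b h < q`, a contradiction. -/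
def S_ISO : Prop :=
  ∀ q n : ℕ, q.Prime → Good q n → ∃ y : ℕ, Iso q n y

/-- PROOF. Let `h (h + 1)^2 ≤ q`, `4 < h`, `b` a prime with `h/2 < b < h`; then `b, h` are coprime, there is
one `m` in `[1, h)` with `b m ≡ -q mod h`, and `n = (q + b m)/h` is good, `q/h < n < q/h + h`.  The intervals
for different `h` are disjoint (`q/(h(h+1)) ≥ h + 1`).  For the same `h` three different `b` can not give the
same `n`: the product of the three would divide `n h - q = b m < h^2` (or: at most `7` by any crude bound).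
So the number of good `n` is at least `1/2 Σ_h (π(h-1) - π(h/2))`, `h ≤ q^(1/3) - 1`; Chebyshev or the PNT. -/
def S_CNT : Prop :=
  ∃ c : ℝ, 0 < c ∧ ∃ Q : ℕ, ∀ q : ℕ, q.Prime → Q ≤ q →
    ∃ R : Finset ℕ, (∀ n ∈ R, 1 ≤ n ∧ n < q ∧ Good q n) ∧
      c * (q : ℝ) ^ ((2 : ℝ) / 3) / Real.log q ≤ (R.card : ℝ)

/-- The odd characters `χ` modulo `q` with `L(χ, 0) = -(1/q) Σ k χ(k)` a unit at the prime `P`
(word for word as in the frozen statement S16969). -/
def Ind (q : ℕ) (P : Ideal (integralClosure ℤ ℂ)) : Set (DirichletCharacter ℂ q) :=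
  {χ : DirichletCharacter ℂ q |
    χ (-1 : ZMod q) = -1 ∧
      ∃ a b : integralClosure ℤ ℂ, a ∉ P ∧ b ∉ P ∧
        (b : ℂ) * (-(1 / (q : ℂ)) *
          ∑ k ∈ Finset.Ico 1 q, (k : ℂ) * χ (k : ZMod q)) = (a : ℂ)}

/-- PROOF. See the header. -/
def S_ALG : Prop :=
  ∀ p q : ℕ, p.Prime → p ≠ 2 → q.Prime → p ≠ q → ¬ p ∣ q - 1 →
    ∀ P : Ideal (integralClosure ℤ ℂ), P.IsMaximal → ((p : integralClosure ℤ ℂ) ∈ P) →
      ∀ R : Finset ℕ, (∀ n ∈ R, 1 ≤ n ∧ n < q ∧ ∃ y : ℕ, Iso q n y) →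
        R.card ≤ (Ind q P).ncard + 1

/-- The theorem. -/
def S_MAIN : Prop :=
  ∃ c : ℝ, 0 < c ∧ ∃ Q : ℕ, ∀ q : ℕ, q.Prime → Q ≤ q →
    ∀ p : ℕ, p.Prime → p ≠ 2 → p ≠ q → ¬ p ∣ q - 1 →
      ∀ P : Ideal (integralClosure ℤ ℂ), P.IsMaximal → ((p : integralClosure ℤ ℂ) ∈ P) →
        c * (q : ℝ) ^ ((2 : ℝ) / 3) / Real.log q ≤ ((Ind q P).ncard : ℝ)

end Pool.Agent.Run7.h257.NP
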